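import Pool.Agent.TH931.LP.Stm

/-!
# LP931-A3: beta integrals with logarithms (helper857)
-/

set_option autoImplicit false

open MeasureTheory Set
open scoped ENNReal

noncomputable section

namespace Pool.Agent.TH857.LP931

open Pool.Agent.TH931.LP

/-- the coefficient -/
def cf (k j : ℕ) : ℝ := (k.factorial : ℝ) * j.factorial / (k + j).factorial

lemma cf_zero (k : ℕ) : cf k 0 = 1 := by
  unfold cf
  have : (k.factorial : ℝ) ≠ 0 := by positivity
  simp [this]

lemma HH_succ (n : ℕ) : HH (n + 1) = HH n + 1 / ((n : ℝ) + 1) := by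
  unfold HH
  rw [Finset.sum_range_succ]

lemma cf_succ (k j : ℕ) : (k + j + 1 : ℝ) * cf k (j + 1) = (j + 1) * cf k j := by
  unfold cf
  have h1 : (k + (j + 1)).factorial = (k + j + 1) * (k + j).factorial := by
    rw [← add_assoc, Nat.factorial_succ]
  rw [h1, Nat.factorial_succ]
  push_cast
  have h2 : ((k + j).factorial : ℝ) ≠ 0 := by positivity
  have h3 : ((k : ℝ) + j + 1) ≠ 0 := by positivity
  field_simp

lemma cf_succ' (k j : ℕ) : (k + j + 1 : ℝ) * cf (k + 1) j = (k + 1) * cf k j := by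
  unfold cf
  have h1 : (k + 1 + j).factorial = (k + j + 1) * (k + j).factorial := by
    rw [show k + 1 + j = k + j + 1 by ring, Nat.factorial_succ]
  rw [h1, Nat.factorial_succ]
  push_cast
  have h2 : ((k + j).factorial : ℝ) ≠ 0 := by positivity
  have h3 : ((k : ℝ) + j + 1) ≠ 0 := by positivity
  field_simp

lemma ii_pow (k j : ℕ) : IntervalIntegrable (fun r : ℝ => k * r ^ (k - 1) * (1 - r) ^ j)
    volume 0 1 := by
  apply Continuous.intervalIntegrable
  fun_prop

lemma ii_log (k j : ℕ) :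
    IntervalIntegrable (fun r : ℝ => k * r ^ (k - 1) * (1 - r) ^ j * -Real.log r)
    volume 0 1 := by
  have h : IntervalIntegrable Real.log volume 0 1 := intervalIntegral.intervalIntegrable_log'
  exact (h.neg).continuousOn_mul (by fun_prop)

lemma int_pow (j : ℕ) : ∀ k : ℕ, 1 ≤ k →
    ∫ r in (0 : ℝ)..1, (k * r ^ (k - 1) * (1 - r) ^ j : ℝ) = cf k j := by
  induction j with
  | zero =>
    intro k hk
    obtain ⟨m, rfl⟩ : ∃ m, k = m + 1 := ⟨k - 1, by omega⟩
    rw [cf_zero]
    simp only [pow_zero, mul_one, Nat.add_sub_cancel]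
    rw [intervalIntegral.integral_const_mul, integral_pow]
    push_cast
    have : ((m : ℝ) + 1) ≠ 0 := by positivity
    field_simp
    simp
  | succ j ih =>
    intro k hk
    have h1 : ∀ r : ℝ, (k * r ^ (k - 1) * (1 - r) ^ (j + 1) : ℝ) =
        k * r ^ (k - 1) * (1 - r) ^ j -
          (k : ℝ) / (k + 1) * (((k + 1 : ℕ) : ℝ) * r ^ (k + 1 - 1) * (1 - r) ^ j) := by
      intro r
      have hk1 : ((k : ℝ) + 1) ≠ 0 := by positivity
      have h2 : r ^ (k + 1 - 1) = r ^ (k - 1) * r := by
        rw [← pow_succ]; congr 1; omega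
      rw [h2]
      push_cast
      field_simp
      ring
    simp_rw [h1]
    rw [intervalIntegral.integral_sub (ii_pow k j) ((ii_pow (k + 1) j).const_mul _),
      intervalIntegral.integral_const_mul, ih k hk, ih (k + 1) (by omega)]
    have e1 := cf_succ k j
    have e2 := cf_succ' k j
    have h3 : ((k : ℝ) + j + 1) ≠ 0 := by positivity
    have hk1 : ((k : ℝ) + 1) ≠ 0 := by positivity
    have e3 : cf (k + 1) j = (k + 1) * cf k j / (k + j + 1) := by
      rw [eq_div_iff h3]; linarith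
    have e4 : cf k (j + 1) = (j + 1) * cf k j / (k + j + 1) := by
      rw [eq_div_iff h3]; linarith
    rw [e3, e4]
    field_simp
    ring

lemma int_log_zero (k : ℕ) (hk : 1 ≤ k) :
    ∫ r in (0 : ℝ)..1, (k * r ^ (k - 1) * (1 - r) ^ 0 * -Real.log r : ℝ) = 1 / k := by
  have hcont : ContinuousOn (fun r : ℝ => r ^ k / k - r ^ (k - 1) * (r * Real.log r)) (Icc 0 1) := by
    have := Real.continuous_mul_log
    fun_prop
  have hder : ∀ x ∈ Ioo (0 : ℝ) 1,
      HasDerivAt (fun r : ℝ => r ^ k / k - r ^ (k - 1) * (r * Real.log r))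
        (k * x ^ (k - 1) * (1 - x) ^ 0 * -Real.log x) x := by
    intro x hx
    have hx0 : x ≠ 0 := hx.1.ne'
    have e : (fun r : ℝ => r ^ k / k - r ^ (k - 1) * (r * Real.log r)) =
        fun r : ℝ => r ^ k / k - r ^ k * Real.log r := by
      funext r
      have : r ^ k = r ^ (k - 1) * r := by rw [← pow_succ]; congr 1; omega
      rw [this]; ring
    rw [e]
    have h1 := ((hasDerivAt_pow k x).div_const (k : ℝ)).sub
      ((hasDerivAt_pow k x).mul (Real.hasDerivAt_log hx0))
    refine h1.congr_deriv ?_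
    have hk0 : (k : ℝ) ≠ 0 := by positivity
    have : x ^ k = x ^ (k - 1) * x := by rw [← pow_succ]; congr 1; omega
    rw [this]
    field_simp
    ring
  have h := intervalIntegral.integral_eq_sub_of_hasDerivAt_of_le (zero_le_one' ℝ) hcont hder
    (ii_log k 0)
  rw [h]
  have h0 : (0 : ℝ) ^ k = 0 := zero_pow (by omega)
  simp [h0]

lemma int_log (j : ℕ) : ∀ k : ℕ, 1 ≤ k →
    ∫ r in (0 : ℝ)..1, (k * r ^ (k - 1) * (1 - r) ^ j * -Real.log r : ℝ) =
      cf k j * (HH (k + j) - HH (k - 1)) := by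
  induction j with
  | zero =>
    intro k hk
    rw [int_log_zero k hk, cf_zero]
    obtain ⟨m, rfl⟩ : ∃ m, k = m + 1 := ⟨k - 1, by omega⟩
    simp only [add_zero, Nat.add_sub_cancel, HH_succ]
    push_cast
    ring
  | succ j ih =>
    intro k hk
    have h1 : ∀ r : ℝ, (k * r ^ (k - 1) * (1 - r) ^ (j + 1) * -Real.log r : ℝ) =
        k * r ^ (k - 1) * (1 - r) ^ j * -Real.log r -
          (k : ℝ) / (k + 1) * (((k + 1 : ℕ) : ℝ) * r ^ (k + 1 - 1) * (1 - r) ^ j * -Real.log r) := by
      intro r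
      have hk1 : ((k : ℝ) + 1) ≠ 0 := by positivity
      have h2 : r ^ (k + 1 - 1) = r ^ (k - 1) * r := by
        rw [← pow_succ]; congr 1; omega
      rw [h2]
      push_cast
      field_simp
      ring
    simp_rw [h1]
    rw [intervalIntegral.integral_sub (ii_log k j) ((ii_log (k + 1) j).const_mul _),
      intervalIntegral.integral_const_mul, ih k hk, ih (k + 1) (by omega)]
    have e1 := cf_succ k j
    have e2 := cf_succ' k j
    have h3 : ((k : ℝ) + j + 1) ≠ 0 := by positivity
    have hk1 : ((k : ℝ) + 1) ≠ 0 := by positivity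
    have hk0 : (k : ℝ) ≠ 0 := by positivity
    have e3 : cf (k + 1) j = (k + 1) * cf k j / (k + j + 1) := by
      rw [eq_div_iff h3]; linarith
    have e4 : cf k (j + 1) = (j + 1) * cf k j / (k + j + 1) := by
      rw [eq_div_iff h3]; linarith
    obtain ⟨m, rfl⟩ : ∃ m, k = m + 1 := ⟨k - 1, by omega⟩
    simp only [Nat.add_sub_cancel] at *
    have f1 : HH (m + 1) = HH m + 1 / ((m : ℝ) + 1) := HH_succ m
    have f2 : HH (m + 1 + 1 + j) = HH (m + 1 + j) + 1 / ((m : ℝ) + 1 + j + 1) := by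
      rw [show m + 1 + 1 + j = m + 1 + j + 1 by ring, HH_succ]
      push_cast
      ring
    have f3 : HH (m + 1 + (j + 1)) = HH (m + 1 + j) + 1 / ((m : ℝ) + 1 + j + 1) := by
      rw [show m + 1 + (j + 1) = m + 1 + j + 1 by ring, HH_succ]
      push_cast
      ring
    rw [e3, e4, f1, f2, f3]
    push_cast at *
    have h5 : ((m : ℝ) + 1 + j + 1) ≠ 0 := by positivity
    field_simp
    ring

lemma int_log' (k j : ℕ) (hk : 1 ≤ k) :
    ∫ r in (0 : ℝ)..1, (k * r ^ (k - 1) * (1 - r) ^ j * -Real.log (1 - r) : ℝ) =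
      cf k j * (HH (k + j) - HH j) := by
  have h1 : ∫ r in (0 : ℝ)..1, (k * r ^ (k - 1) * (1 - r) ^ j * -Real.log (1 - r) : ℝ) =
      ∫ r in (0 : ℝ)..1, (k * (1 - r) ^ (k - 1) * r ^ j * -Real.log r : ℝ) := by
    have := intervalIntegral.integral_comp_sub_left
      (fun r : ℝ => (k * (1 - r) ^ (k - 1) * r ^ j * -Real.log r : ℝ)) (a := 0) (b := 1) 1
    simp only [sub_sub_cancel, sub_self, sub_zero] at this
    exact this
  have h2 : ∀ r : ℝ, (k * (1 - r) ^ (k - 1) * r ^ j * -Real.log r : ℝ) =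
      (k : ℝ) / (j + 1) * (((j + 1 : ℕ) : ℝ) * r ^ (j + 1 - 1) * (1 - r) ^ (k - 1) * -Real.log r) := by
    intro r
    have : ((j : ℝ) + 1) ≠ 0 := by positivity
    simp only [Nat.add_sub_cancel]
    push_cast
    field_simp
  rw [h1]
  simp_rw [h2]
  rw [intervalIntegral.integral_const_mul, int_log (k - 1) (j + 1) (by omega)]
  obtain ⟨m, rfl⟩ : ∃ m, k = m + 1 := ⟨k - 1, by omega⟩
  simp only [Nat.add_sub_cancel]
  rw [show j + 1 + m = m + 1 + j by ring]
  have : (((m + 1 : ℕ) : ℝ) / (j + 1)) * cf (j + 1) m = cf (m + 1) j := by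
    unfold cf
    rw [show j + 1 + m = m + 1 + j by ring, Nat.factorial_succ, Nat.factorial_succ]
    push_cast
    have : ((j : ℝ) + 1) ≠ 0 := by positivity
    field_simp
  rw [← this]
  ring

lemma ii_log' (k j : ℕ) :
    IntervalIntegrable (fun r : ℝ => k * r ^ (k - 1) * (1 - r) ^ j * -Real.log (1 - r))
    volume 0 1 := by
  have h : IntervalIntegrable Real.log volume 0 1 := intervalIntegral.intervalIntegrable_log'
  have h2 := h.comp_sub_left 1
  simp only [sub_zero, sub_self] at h2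
  exact (h2.symm.neg).continuousOn_mul (by fun_prop)

lemma conv {f : ℝ → ℝ} (hf : IntervalIntegrable f volume 0 1)
    (h0 : ∀ r ∈ Ioc (0 : ℝ) 1, 0 ≤ f r) :
    ∫⁻ r in Ioc (0 : ℝ) 1, ENNReal.ofReal (f r) = ENNReal.ofReal (∫ r in (0 : ℝ)..1, f r) := by
  rw [intervalIntegral.integral_of_le zero_le_one, ofReal_integral_eq_lintegral_ofReal]
  · exact (intervalIntegrable_iff_integrableOn_Ioc_of_le zero_le_one).1 hf
  · exact (ae_restrict_iff' measurableSet_Ioc).2 (Filter.Eventually.of_forall h0)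

theorem beta : S_beta := by
  intro k j hk
  refine ⟨?_, ?_, ?_⟩
  · rw [conv (ii_pow k j), int_pow j k hk]
    · rfl
    · intro r hr
      have h1 : 0 ≤ 1 - r := by linarith [hr.2]
      have h2 : 0 ≤ r := hr.1.le
      positivity
  · rw [conv (ii_log k j), int_log j k hk]
    · rfl
    · intro r hr
      have h1 : 0 ≤ 1 - r := by linarith [hr.2]
      have h2 : 0 ≤ r := hr.1.le
      have h3 : 0 ≤ -Real.log r := by
        have := Real.log_nonpos h2 hr.2
        linarith
      positivity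
  · rw [conv (ii_log' k j), int_log' k j hk]
    · rfl
    · intro r hr
      have h1 : 0 ≤ 1 - r := by linarith [hr.2]
      have h2 : 0 ≤ r := hr.1.le
      have h3 : 0 ≤ -Real.log (1 - r) := by
        have := Real.log_nonpos h1 (by linarith)
        linarith
      positivity

end Pool.Agent.TH857.LP931
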